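import Mathlib

/-!
The second moment of the likelihood ratio: sums over sign vectors.
-/

set_option autoImplicit false

open MeasureTheory ProbabilityTheory Finset

namespace Pool.Agent.Run7.h59.K2

lemma real_inner_eq_mul (a b : ℝ) : inner ℝ a b = a * b := by
  simp [mul_comm]

lemma pairs_sum {α : Type*} [DecidableEq α] (s : Finset α) (z : α → ℝ) :
    2 * ∑ S ∈ s.powersetCard 2, ∏ i ∈ S, z i = (∑ i ∈ s, z i) ^ 2 - ∑ i ∈ s, z i ^ 2 := by
  induction s using Finset.induction_on with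
  | empty =>
    rw [Finset.powersetCard_eq_empty.2 (by simp)]
    simp
  | insert a s ha ih =>
    rw [show (2 : ℕ) = Nat.succ 1 from rfl, Finset.powersetCard_succ_insert ha]
    have hd : Disjoint (s.powersetCard (Nat.succ 1)) ((s.powersetCard 1).image (insert a)) := by
      rw [Finset.disjoint_left]
      intro S hS hS'
      rw [Finset.mem_image] at hS'
      obtain ⟨T, _, rfl⟩ := hS'
      exact ha ((Finset.mem_powersetCard.1 hS).1 (Finset.mem_insert_self a T))
    rw [Finset.sum_union hd, Finset.sum_image]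
    · have h1 : ∀ T ∈ s.powersetCard 1, ∏ i ∈ insert a T, z i = z a * ∏ i ∈ T, z i := by
        intro T hT
        rw [Finset.prod_insert]
        exact fun h => ha ((Finset.mem_powersetCard.1 hT).1 h)
      rw [Finset.sum_congr rfl h1, ← Finset.mul_sum, Finset.powersetCard_one, Finset.sum_map]
      simp only [Function.Embedding.coeFn_mk, Finset.prod_singleton]
      rw [Finset.sum_insert ha, Finset.sum_insert ha, mul_add]
      rw [show Nat.succ 1 = 2 from rfl, ih]
      ring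
    · intro S hS T hT hST
      have h2 : ∀ U ∈ (s.powersetCard 1 : Finset (Finset α)), (insert a U).erase a = U := by
        intro U hU
        exact Finset.erase_insert fun h => ha ((Finset.mem_powersetCard.1 hU).1 h)
      rw [← h2 S hS, ← h2 T hT]
      exact congrArg (fun U : Finset α => U.erase a) hST

/-- the sign of a set -/
noncomputable def chi {n : ℕ} (x : Fin n → ℤˣ) (S : Finset (Fin n)) : ℝ := ∏ i ∈ S, ((x i : ℤ) : ℝ)

lemma chi_mul {n : ℕ} (x y : Fin n → ℤˣ) (S : Finset (Fin n)) :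
    chi (x * y) S = chi x S * chi y S := by
  unfold chi
  rw [← Finset.prod_mul_distrib]
  refine Finset.prod_congr rfl fun i _ => ?_
  rw [Pi.mul_apply, Units.val_mul, Int.cast_mul]

lemma unit_sq (u : ℤˣ) : ((u : ℤ) : ℝ) * ((u : ℤ) : ℝ) = 1 := by
  rcases Int.units_eq_one_or u with h | h <;> rw [h] <;> simp

lemma chi_sq {n : ℕ} (x : Fin n → ℤˣ) (S : Finset (Fin n)) : chi x S * chi x S = 1 := by
  unfold chi
  rw [← Finset.prod_mul_distrib]
  exact Finset.prod_eq_one fun i _ => unit_sq _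

lemma chi_symm {n : ℕ} (x : Fin n → ℤˣ) (S T : Finset (Fin n)) :
    chi x (symmDiff S T) = chi x S * chi x T := by
  have h1 : chi x S = chi x (S \ T) * chi x (S ∩ T) := by
    unfold chi
    rw [mul_comm, Finset.prod_inter_mul_prod_sdiff]
  have h2 : chi x T = chi x (T \ S) * chi x (S ∩ T) := by
    unfold chi
    rw [mul_comm, Finset.inter_comm, Finset.prod_inter_mul_prod_sdiff]
  have h3 : chi x (symmDiff S T) = chi x (S \ T) * chi x (T \ S) := by
    unfold chi
    rw [symmDiff_def, Finset.sup_eq_union, Finset.prod_union]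
    exact disjoint_sdiff_sdiff
  rw [h1, h2, h3]
  have h4 := chi_sq x (S ∩ T)
  linear_combination (-(chi x (S \ T) * chi x (T \ S))) * h4

lemma cosh_sum (n : ℕ) (t : ℝ) :
    ∑ z : Fin n → ℤˣ, Real.exp (t * ∑ i, ((z i : ℤ) : ℝ)) = (2 * Real.cosh t) ^ n := by
  have h1 : ∀ z : Fin n → ℤˣ, Real.exp (t * ∑ i, ((z i : ℤ) : ℝ)) =
      ∏ i, Real.exp (t * ((z i : ℤ) : ℝ)) := by
    intro z
    rw [Finset.mul_sum, Real.exp_sum]
  simp_rw [h1]
  rw [← Fintype.piFinset_univ, ← Finset.prod_univ_sum (fun _ : Fin n => (Finset.univ : Finset ℤˣ))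
    (fun _ u => Real.exp (t * ((u : ℤ) : ℝ)))]
  rw [Finset.prod_const, Finset.card_univ, Fintype.card_fin]
  congr 1
  rw [Real.cosh_eq, show (Finset.univ : Finset ℤˣ) = {1, -1} from rfl,
    Finset.sum_pair (by decide)]
  simp
  ring

lemma gauss_exp (t : ℝ) : ∫ g, Real.exp (t * g) ∂(gaussianReal 0 1) = Real.exp (t ^ 2 / 2) := by
  have h := congrFun (mgf_fun_id_gaussianReal (μ := 0) (v := 1)) t
  unfold mgf at h
  rw [h]
  congr 1
  simp

/-- `∑_z exp ((lam ∑ z_i)^2 / 2) ≤ 2^n ∫ exp (n lam^2 g^2 / 2)` -/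
lemma sign_sum_le (n : ℕ) (lam : ℝ)
    (hI : Integrable (fun g : ℝ => Real.exp (n * lam ^ 2 / 2 * g ^ 2)) (gaussianReal 0 1)) :
    ∑ z : Fin n → ℤˣ, Real.exp (lam ^ 2 / 2 * (∑ i, ((z i : ℤ) : ℝ)) ^ 2) ≤
      2 ^ n * ∫ g, Real.exp (n * lam ^ 2 / 2 * g ^ 2) ∂(gaussianReal 0 1) := by
  have h1 : ∀ z : Fin n → ℤˣ, Real.exp (lam ^ 2 / 2 * (∑ i, ((z i : ℤ) : ℝ)) ^ 2) =
      ∫ g, Real.exp ((lam * ∑ i, ((z i : ℤ) : ℝ)) * g) ∂(gaussianReal 0 1) := by
    intro z
    rw [gauss_exp]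
    congr 1
    ring
  simp_rw [h1]
  rw [← integral_finsetSum _ fun z _ => integrable_exp_mul_gaussianReal _, ← integral_const_mul]
  refine integral_mono (integrable_finsetSum _ fun z _ => integrable_exp_mul_gaussianReal _)
    (hI.const_mul _) fun g => ?_
  simp only
  have h2 : ∀ z : Fin n → ℤˣ, Real.exp ((lam * ∑ i, ((z i : ℤ) : ℝ)) * g) =
      Real.exp ((lam * g) * ∑ i, ((z i : ℤ) : ℝ)) := by
    intro z
    congr 1
    ring
  simp_rw [h2]
  rw [cosh_sum, mul_pow]
  apply mul_le_mul_of_nonneg_left _ (by positivity)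
  calc Real.cosh (lam * g) ^ n ≤ (Real.exp ((lam * g) ^ 2 / 2)) ^ n :=
        pow_le_pow_left₀ (Real.cosh_pos _).le (Real.cosh_le_exp_half_sq _) n
    _ = _ := by
        rw [← Real.exp_nat_mul]
        congr 1
        ring

/-- the shifts -/
noncomputable def shf {n : ℕ} (lam : ℝ) (x : Fin n → ℤˣ) : EuclideanSpace ℝ (Finset (Fin n)) :=
  WithLp.toLp 2 fun S => if S.card = 2 then lam * chi x S else 0

lemma shf_inner {n : ℕ} (lam : ℝ) (x y : Fin n → ℤˣ) :
    inner ℝ (shf lam x) (shf lam y) ≤ lam ^ 2 / 2 * (∑ i, (((x * y) i : ℤ) : ℝ)) ^ 2 := by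
  have h1 : inner ℝ (shf lam x) (shf lam y) =
      lam ^ 2 * ∑ S ∈ (Finset.univ : Finset (Fin n)).powersetCard 2, chi (x * y) S := by
    unfold shf
    rw [PiLp.inner_apply]
    have e : ∀ S : Finset (Fin n), inner ℝ
        ((WithLp.toLp 2 fun S : Finset (Fin n) => if S.card = 2 then lam * chi x S else 0 :
          EuclideanSpace ℝ (Finset (Fin n))) S)
        ((WithLp.toLp 2 fun S : Finset (Fin n) => if S.card = 2 then lam * chi y S else 0 :
          EuclideanSpace ℝ (Finset (Fin n))) S) =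
        if S.card = 2 then lam ^ 2 * chi (x * y) S else 0 := by
      intro S
      rw [real_inner_eq_mul]
      show (if S.card = 2 then lam * chi x S else 0) * (if S.card = 2 then lam * chi y S else 0) = _
      split_ifs
      · rw [chi_mul]
        ring
      · ring
    rw [Finset.sum_congr rfl fun S _ => e S, ← Finset.sum_filter, Finset.mul_sum]
    refine Finset.sum_congr ?_ fun S _ => rfl
    ext S
    simp [Finset.mem_powersetCard]
  have h2 := pairs_sum (Finset.univ : Finset (Fin n)) fun i => (((x * y) i : ℤ) : ℝ)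
  have h3 : ∑ S ∈ (Finset.univ : Finset (Fin n)).powersetCard 2, chi (x * y) S ≤
      (∑ i, (((x * y) i : ℤ) : ℝ)) ^ 2 / 2 := by
    have h4 : 0 ≤ ∑ i : Fin n, (((x * y) i : ℤ) : ℝ) ^ 2 :=
      Finset.sum_nonneg fun i _ => sq_nonneg _
    have h5 : 2 * ∑ S ∈ (Finset.univ : Finset (Fin n)).powersetCard 2, chi (x * y) S =
        (∑ i, (((x * y) i : ℤ) : ℝ)) ^ 2 - ∑ i, (((x * y) i : ℤ) : ℝ) ^ 2 := h2
    linarith
  rw [h1]
  have := mul_le_mul_of_nonneg_left h3 (sq_nonneg lam)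
  linarith

/-- the second moment of the likelihood ratio -/
theorem second (n : ℕ) (lam : ℝ)
    (hI : Integrable (fun g : ℝ => Real.exp (n * lam ^ 2 / 2 * g ^ 2)) (gaussianReal 0 1)) :
    ∑ x : Fin n → ℤˣ, ∑ y : Fin n → ℤˣ, Real.exp (inner ℝ (shf lam x) (shf lam y)) ≤
      (∫ g, Real.exp (n * lam ^ 2 / 2 * g ^ 2) ∂(gaussianReal 0 1)) *
        (Fintype.card (Fin n → ℤˣ) : ℝ) ^ 2 := by
  have hc : (Fintype.card (Fin n → ℤˣ) : ℝ) = 2 ^ n := by
    rw [Fintype.card_fun, Fintype.card_units_int, Fintype.card_fin]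
    norm_num
  have h1 : ∀ x : Fin n → ℤˣ, ∑ y : Fin n → ℤˣ, Real.exp (inner ℝ (shf lam x) (shf lam y)) ≤
      2 ^ n * ∫ g, Real.exp (n * lam ^ 2 / 2 * g ^ 2) ∂(gaussianReal 0 1) := by
    intro x
    refine le_trans ?_ (sign_sum_le n lam hI)
    rw [← Equiv.sum_comp (Equiv.mulLeft x)
      (fun z : Fin n → ℤˣ => Real.exp (lam ^ 2 / 2 * (∑ i, ((z i : ℤ) : ℝ)) ^ 2))]
    apply Finset.sum_le_sum
    intro y _
    exact Real.exp_le_exp.2 (shf_inner lam x y)
  refine (Finset.sum_le_sum fun x _ => h1 x).trans (le_of_eq ?_)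
  rw [Finset.sum_const, Finset.card_univ, nsmul_eq_mul, hc]
  ring

end Pool.Agent.Run7.h59.K2
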