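import Pool.Agent.Run7.h59.KK.Lmax
import Pool.Agent.Run7.h59.K2.Signs

/-!
The Kikuchi matrix for `r = 2`: Lipschitz bound, gauge invariance, lower bound by stars.
-/

set_option autoImplicit false

open MeasureTheory ProbabilityTheory Finset

namespace Pool.Agent.Run7.h59.K2

open Pool.Agent.Run7.h59.KK (lmax kik le_lmax lmax_le)

variable {n : ℕ}

/-- pairs of neighbours -/
def prs (n ℓ : ℕ) : Finset ({K : Finset (Fin n) // K.card = ℓ} × {K : Finset (Fin n) // K.card = ℓ}) :=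
  Finset.univ.filter fun p => (symmDiff p.1.1 p.2.1).card = 2

lemma mem_prs {ℓ : ℕ} {p : {K : Finset (Fin n) // K.card = ℓ} × {K : Finset (Fin n) // K.card = ℓ}} :
    p ∈ prs n ℓ ↔ (symmDiff p.1.1 p.2.1).card = 2 := by
  unfold prs
  simp

lemma form_sum (ℓ : ℕ) (W : Finset (Fin n) → ℝ) (v : {K : Finset (Fin n) // K.card = ℓ} → ℝ) :
    dotProduct v (Matrix.mulVec (kik 2 ℓ n 0 W) v) =
      ∑ p ∈ prs n ℓ, W (symmDiff p.1.1 p.2.1) * (v p.1 * v p.2) := by
  unfold prs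
  rw [Finset.sum_filter, Fintype.sum_prod_type]
  unfold dotProduct Matrix.mulVec dotProduct
  refine Finset.sum_congr rfl fun I _ => ?_
  rw [Finset.mul_sum]
  refine Finset.sum_congr rfl fun J _ => ?_
  show v I * (kik 2 ℓ n 0 W I J * v J) = _
  unfold kik
  rw [Matrix.of_apply]
  simp only
  split_ifs
  · ring
  · ring

/-- the neighbours above a common part -/
def abv (n ℓ : ℕ) (K : Finset (Fin n)) : Finset {K : Finset (Fin n) // K.card = ℓ} :=
  Finset.univ.filter fun I => K ∈ I.1.powersetCard (ℓ - 1)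

lemma inter_card {ℓ : ℕ} {p : {K : Finset (Fin n) // K.card = ℓ} × {K : Finset (Fin n) // K.card = ℓ}}
    (hp : p ∈ prs n ℓ) : (p.1.1 ∩ p.2.1).card = ℓ - 1 ∧ (p.1.1 \ p.2.1).card = 1 ∧
      (p.2.1 \ p.1.1).card = 1 := by
  have h1 := mem_prs.1 hp
  rw [Pool.Agent.Run7.h59.KK.card_symm] at h1
  have h2 := Finset.card_inter_add_card_sdiff p.1.1 p.2.1
  have h3 := Finset.card_inter_add_card_sdiff p.2.1 p.1.1
  rw [Finset.inter_comm p.2.1 p.1.1] at h3
  rw [p.1.2] at h2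
  rw [p.2.2] at h3
  omega

lemma sum_above (ℓ : ℕ) (hl : 1 ≤ ℓ) (q : {K : Finset (Fin n) // K.card = ℓ} → ℝ) :
    ∑ K : Finset (Fin n), ∑ I ∈ abv n ℓ K, q I = ℓ * ∑ I, q I := by
  unfold abv
  simp_rw [Finset.sum_filter]
  rw [Finset.sum_comm, Finset.mul_sum]
  refine Finset.sum_congr rfl fun I _ => ?_
  rw [← Finset.sum_filter, Finset.sum_const, nsmul_eq_mul]
  congr 1
  have e : (Finset.univ.filter fun K : Finset (Fin n) => K ∈ I.1.powersetCard (ℓ - 1)) =
      I.1.powersetCard (ℓ - 1) := by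
    ext K
    simp
  rw [e, Finset.card_powersetCard, I.2]
  rw [Nat.choose_symm_of_eq_add (show ℓ = (ℓ - 1) + 1 by omega), Nat.choose_one_right]

lemma part_W {ℓ : ℕ} (W : Finset (Fin n) → ℝ) (K : Finset (Fin n)) :
    ∑ p ∈ (prs n ℓ).filter (fun p => p.1.1 ∩ p.2.1 = K), W (symmDiff p.1.1 p.2.1) ^ 2 ≤
      2 * ∑ S, W S ^ 2 := by
  obtain ⟨T, hT⟩ : ∃ T : Finset (Finset (Fin n) × Finset (Fin n)),
      T = Finset.univ.filter (fun q => q.1.card = 2 ∧ q.2 ∈ q.1.powersetCard 1) := ⟨_, rfl⟩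
  have h1 : ∑ p ∈ (prs n ℓ).filter (fun p => p.1.1 ∩ p.2.1 = K), W (symmDiff p.1.1 p.2.1) ^ 2 =
      ∑ q ∈ ((prs n ℓ).filter (fun p => p.1.1 ∩ p.2.1 = K)).image
        (fun p => (symmDiff p.1.1 p.2.1, p.1.1 \ p.2.1)), W q.1 ^ 2 := by
    rw [Finset.sum_image]
    intro p hp p' hp' hpp
    rw [Finset.mem_coe, Finset.mem_filter] at hp hp'
    simp only [Prod.mk.injEq] at hpp
    have e1 : p.1.1 = p'.1.1 := by
      rw [← Finset.sdiff_union_inter p.1.1 p.2.1, ← Finset.sdiff_union_inter p'.1.1 p'.2.1, hp.2,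
        hp'.2, hpp.2]
    have e2 : ∀ p : {K : Finset (Fin n) // K.card = ℓ} × {K : Finset (Fin n) // K.card = ℓ},
        p.2.1 = symmDiff p.1.1 (symmDiff p.1.1 p.2.1) := by
      intro p
      rw [← symmDiff_assoc, symmDiff_self, bot_symmDiff]
    have e3 : p.2.1 = p'.2.1 := by
      rw [e2 p, e2 p', hpp.1, e1]
    exact Prod.ext (Subtype.ext e1) (Subtype.ext e3)
  have h2 : ∑ q ∈ ((prs n ℓ).filter (fun p => p.1.1 ∩ p.2.1 = K)).image
        (fun p => (symmDiff p.1.1 p.2.1, p.1.1 \ p.2.1)), W q.1 ^ 2 ≤ ∑ q ∈ T, W q.1 ^ 2 := by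
    apply Finset.sum_le_sum_of_subset_of_nonneg
    · intro q hq
      obtain ⟨p, hp, rfl⟩ := Finset.mem_image.1 hq
      rw [Finset.mem_filter] at hp
      rw [hT, Finset.mem_filter, Finset.mem_powersetCard]
      refine ⟨Finset.mem_univ _, mem_prs.1 hp.1, ?_, (inter_card hp.1).2.1⟩
      simp only
      rw [symmDiff_def]
      exact le_sup_left
    · intro q _ _
      exact sq_nonneg _
  have h3 : ∑ q ∈ T, W q.1 ^ 2 ≤ 2 * ∑ S, W S ^ 2 := by
    rw [hT, Finset.sum_filter, Fintype.sum_prod_type, Finset.mul_sum]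
    apply Finset.sum_le_sum
    intro S _
    simp only
    by_cases hS : S.card = 2
    · have e : ∀ U : Finset (Fin n), (if S.card = 2 ∧ U ∈ S.powersetCard 1 then W S ^ 2 else 0) =
          if U ∈ S.powersetCard 1 then W S ^ 2 else 0 := by
        intro U
        simp [hS]
      rw [Finset.sum_congr rfl fun U _ => e U, ← Finset.sum_filter, Finset.sum_const]
      have e2 : (Finset.univ.filter fun U : Finset (Fin n) => U ∈ S.powersetCard 1) =
          S.powersetCard 1 := by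
        ext U
        simp
      rw [e2, Finset.card_powersetCard, hS]
      simp
    · have e : ∀ U : Finset (Fin n), (if S.card = 2 ∧ U ∈ S.powersetCard 1 then W S ^ 2 else 0) =
          0 := by
        intro U
        simp [hS]
      rw [Finset.sum_congr rfl fun U _ => e U, Finset.sum_const_zero]
      positivity
  linarith

lemma part_v {ℓ : ℕ} (v : {K : Finset (Fin n) // K.card = ℓ} → ℝ) (K : Finset (Fin n)) :
    ∑ p ∈ (prs n ℓ).filter (fun p => p.1.1 ∩ p.2.1 = K), (v p.1 * v p.2) ^ 2 ≤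
      (∑ I ∈ abv n ℓ K, v I ^ 2) ^ 2 := by
  have h1 : (∑ I ∈ abv n ℓ K, v I ^ 2) ^ 2 =
      ∑ p ∈ (abv n ℓ K) ×ˢ (abv n ℓ K), (v p.1 * v p.2) ^ 2 := by
    rw [sq, Finset.sum_mul_sum, Finset.sum_product]
    refine Finset.sum_congr rfl fun I _ => Finset.sum_congr rfl fun J _ => ?_
    ring
  rw [h1]
  apply Finset.sum_le_sum_of_subset_of_nonneg
  · intro p hp
    rw [Finset.mem_filter] at hp
    have h2 := inter_card hp.1
    unfold abv
    rw [Finset.mem_product, Finset.mem_filter, Finset.mem_filter, Finset.mem_powersetCard,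
      Finset.mem_powersetCard, ← hp.2]
    exact ⟨⟨Finset.mem_univ _, Finset.inter_subset_left, h2.1⟩, Finset.mem_univ _,
      Finset.inter_subset_right, h2.1⟩
  · intro p _ _
    exact sq_nonneg _

/-- the quadratic form is at most `2 ℓ` times the Euclidean norm of the noise -/
lemma form_le (ℓ : ℕ) (hl : 1 ≤ ℓ) (W : Finset (Fin n) → ℝ)
    {v : {K : Finset (Fin n) // K.card = ℓ} → ℝ} (hv : dotProduct v v = 1) :
    dotProduct v (Matrix.mulVec (kik 2 ℓ n 0 W) v) ≤ 2 * ℓ * √(∑ S, W S ^ 2) := by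
  rw [form_sum, ← Finset.sum_fiberwise (prs n ℓ) (fun p => p.1.1 ∩ p.2.1)]
  have h1 : ∀ K : Finset (Fin n), ∑ p ∈ (prs n ℓ).filter (fun p => p.1.1 ∩ p.2.1 = K),
      W (symmDiff p.1.1 p.2.1) * (v p.1 * v p.2) ≤
      √(2 * ∑ S, W S ^ 2) * ∑ I ∈ abv n ℓ K, v I ^ 2 := by
    intro K
    refine (Real.sum_mul_le_sqrt_mul_sqrt _ _ _).trans ?_
    apply mul_le_mul (Real.sqrt_le_sqrt (part_W W K)) _ (Real.sqrt_nonneg _) (Real.sqrt_nonneg _)
    rw [Real.sqrt_le_left (Finset.sum_nonneg fun I _ => sq_nonneg _)]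
    exact part_v v K
  refine (Finset.sum_le_sum fun K _ => h1 K).trans ?_
  rw [← Finset.mul_sum, sum_above ℓ hl]
  have h2 : ∑ I, v I ^ 2 = 1 := by
    rw [← hv]
    unfold dotProduct
    exact Finset.sum_congr rfl fun i _ => by ring
  rw [h2, mul_one, Real.sqrt_mul (by norm_num)]
  have h3 : √2 ≤ 2 := by
    rw [Real.sqrt_le_left (by norm_num)]
    norm_num
  have h4 : 0 ≤ √(∑ S, W S ^ 2) := Real.sqrt_nonneg _
  have h5 : (0 : ℝ) ≤ ℓ := Nat.cast_nonneg _
  calc √2 * √(∑ S, W S ^ 2) * ℓ = √2 * (ℓ * √(∑ S, W S ^ 2)) := by ring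
    _ ≤ 2 * (ℓ * √(∑ S, W S ^ 2)) := mul_le_mul_of_nonneg_right h3 (by positivity)
    _ = _ := by ring

lemma kik_add (ℓ : ℕ) (Z W : Finset (Fin n) → ℝ) :
    kik 2 ℓ n 0 (Z + W) = kik 2 ℓ n 0 Z + kik 2 ℓ n 0 W := by
  ext I J
  unfold kik
  rw [Matrix.add_apply, Matrix.of_apply, Matrix.of_apply, Matrix.of_apply]
  split_ifs
  · rw [Pi.add_apply]; ring
  · ring

lemma kik_shift (ℓ : ℕ) (lam : ℝ) (Z : Finset (Fin n) → ℝ) :
    kik 2 ℓ n lam Z = kik 2 ℓ n 0 (fun S => Z S + if S.card = 2 then lam else 0) := by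
  ext I J
  unfold kik
  rw [Matrix.of_apply, Matrix.of_apply]
  by_cases h : (symmDiff I.1 J.1).card = 2
  · simp only [h, if_true]
    ring
  · simp only [h, if_false]

lemma lmax_lip2 (ℓ : ℕ) (hl : 1 ≤ ℓ) [Nonempty {K : Finset (Fin n) // K.card = ℓ}]
    (Z Z' : Finset (Fin n) → ℝ) :
    lmax (kik 2 ℓ n 0 Z) ≤ lmax (kik 2 ℓ n 0 Z') + 2 * ℓ * √(∑ S, (Z S - Z' S) ^ 2) := by
  apply lmax_le
  intro v hv
  have h1 : kik 2 ℓ n 0 Z = kik 2 ℓ n 0 Z' + kik 2 ℓ n 0 (Z - Z') := by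
    rw [← kik_add]
    congr 1
    abel
  rw [h1, Matrix.add_mulVec, dotProduct_add]
  exact add_le_add (le_lmax _ hv) (form_le ℓ hl (Z - Z') hv)

/-- the Lipschitz function on Euclidean space -/
noncomputable def FF (n ℓ : ℕ) (x : EuclideanSpace ℝ (Finset (Fin n))) : ℝ :=
  lmax (kik 2 ℓ n 0 fun S => x S)

lemma FF_lip (ℓ : ℕ) (hl : 1 ≤ ℓ) [Nonempty {K : Finset (Fin n) // K.card = ℓ}] :
    LipschitzWith (2 * ℓ : NNReal) (FF n ℓ) := by
  apply LipschitzWith.of_dist_le_mul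
  intro x y
  rw [Real.dist_eq, EuclideanSpace.dist_eq]
  have h1 := lmax_lip2 ℓ hl (fun S => x S) (fun S => y S)
  have h2 := lmax_lip2 ℓ hl (fun S => y S) (fun S => x S)
  have e1 : ∑ S, dist (x S) (y S) ^ 2 = ∑ S, (x S - y S) ^ 2 := by
    refine Finset.sum_congr rfl fun S _ => ?_
    rw [Real.dist_eq, sq_abs]
  have e2 : ∑ S, (y S - x S) ^ 2 = ∑ S, (x S - y S) ^ 2 := by
    refine Finset.sum_congr rfl fun S _ => ?_
    ring
  rw [e2] at h2
  rw [e1]
  push_cast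
  unfold FF
  exact abs_le.2 ⟨by linarith, by linarith⟩

/-- gauge invariance, one direction -/
lemma gauge_le (ℓ : ℕ) [Nonempty {K : Finset (Fin n) // K.card = ℓ}] (x : Fin n → ℤˣ)
    (Z : Finset (Fin n) → ℝ) :
    lmax (kik 2 ℓ n 0 fun S => chi x S * Z S) ≤ lmax (kik 2 ℓ n 0 Z) := by
  apply lmax_le
  intro v hv
  have h1 : dotProduct (fun I => chi x I.1 * v I) (fun I => chi x I.1 * v I) = 1 := by
    rw [← hv]
    unfold dotProduct
    refine Finset.sum_congr rfl fun I _ => ?_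
    linear_combination (v I * v I) * chi_sq x I.1
  refine le_trans (le_of_eq ?_) (le_lmax _ h1)
  rw [form_sum, form_sum]
  refine Finset.sum_congr rfl fun p _ => ?_
  rw [chi_symm]
  ring

lemma gauge (ℓ : ℕ) [Nonempty {K : Finset (Fin n) // K.card = ℓ}] (x : Fin n → ℤˣ)
    (Z : Finset (Fin n) → ℝ) :
    lmax (kik 2 ℓ n 0 fun S => chi x S * Z S) = lmax (kik 2 ℓ n 0 Z) := by
  apply le_antisymm (gauge_le ℓ x Z)
  have h := gauge_le ℓ x (fun S => chi x S * Z S)
  have e : (fun S => chi x S * (chi x S * Z S)) = Z := by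
    funext S
    rw [← mul_assoc, chi_sq, one_mul]
  rwa [e] at h

/-- the star bound -/
lemma star_le {V : Type*} [Fintype V] [DecidableEq V] (A : Matrix V V ℝ) (hA : A.IsSymm) (I : V)
    (T : Finset V) (hT : T.Nonempty) (hI : I ∉ T) :
    2 * ((√(T.card : ℝ))⁻¹ * ∑ J ∈ T, |A J I|) ≤ lmax A + lmax (-A) := by
  obtain ⟨N, hN⟩ : ∃ N, N = √(T.card : ℝ) := ⟨_, rfl⟩
  have hN0 : 0 < N := by
    rw [hN]
    exact Real.sqrt_pos.2 (by exact_mod_cast hT.card_pos)
  have hN2 : N * N = T.card := by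
    rw [hN]
    exact Real.mul_self_sqrt (Nat.cast_nonneg _)
  rw [← hN]
  obtain ⟨u, hu⟩ : ∃ u : V → ℝ, u = Pi.single I 1 := ⟨_, rfl⟩
  obtain ⟨w, hw⟩ : ∃ w : V → ℝ, w = fun J => if J ∈ T then N⁻¹ * (if 0 ≤ A J I then 1 else -1)
    else 0 := ⟨_, rfl⟩
  have huu : dotProduct u u = 1 := by rw [hu]; simp
  have huw : dotProduct u w = 0 := by
    rw [hu, single_dotProduct, one_mul, hw]
    simp [hI]
  have hwu : dotProduct w u = 0 := by rw [dotProduct_comm, huw]
  have hww : dotProduct w w = 1 := by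
    have h1 : ∀ J, w J * w J = if J ∈ T then N⁻¹ * N⁻¹ else 0 := by
      intro J
      rw [hw]
      simp only
      split_ifs <;> ring
    unfold dotProduct
    rw [Finset.sum_congr rfl fun J _ => h1 J, Finset.sum_ite_mem, Finset.univ_inter,
      Finset.sum_const, nsmul_eq_mul, ← hN2]
    field_simp
  have hAw : dotProduct w (Matrix.mulVec A u) = N⁻¹ * ∑ J ∈ T, |A J I| := by
    rw [hu, Matrix.mulVec_single_one]
    have h1 : ∀ J, w J * A.col I J = if J ∈ T then N⁻¹ * |A J I| else 0 := by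
      intro J
      rw [hw, Matrix.col_apply]
      simp only
      split_ifs with h2 h3
      · rw [abs_of_nonneg h3]; ring
      · rw [abs_of_neg (not_le.1 h3)]; ring
      · ring
    unfold dotProduct
    rw [Finset.sum_congr rfl fun J _ => h1 J, Finset.sum_ite_mem, Finset.univ_inter,
      ← Finset.mul_sum]
  have hsym : dotProduct u (Matrix.mulVec A w) = dotProduct w (Matrix.mulVec A u) := by
    rw [Matrix.dotProduct_mulVec, ← Matrix.mulVec_transpose, hA, dotProduct_comm]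
  obtain ⟨c, hc⟩ : ∃ c : ℝ, c = √(1 / 2) := ⟨_, rfl⟩
  have hc2 : c * c = 1 / 2 := by
    rw [hc]
    exact Real.mul_self_sqrt (by norm_num)
  have hp : dotProduct (c • (u + w)) (c • (u + w)) = 1 := by
    rw [smul_dotProduct, dotProduct_smul, add_dotProduct, dotProduct_add, dotProduct_add, huu, huw,
      hwu, hww, smul_eq_mul, smul_eq_mul, ← mul_assoc, hc2]
    norm_num
  have hm : dotProduct (c • (u - w)) (c • (u - w)) = 1 := by
    rw [smul_dotProduct, dotProduct_smul, sub_dotProduct, dotProduct_sub, dotProduct_sub, huu, huw,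
      hwu, hww, smul_eq_mul, smul_eq_mul, ← mul_assoc, hc2]
    norm_num
  have h1 := le_lmax A hp
  have h2 := le_lmax (-A) hm
  rw [Matrix.mulVec_smul, smul_dotProduct, dotProduct_smul, Matrix.mulVec_add, add_dotProduct,
    dotProduct_add, dotProduct_add, smul_eq_mul, smul_eq_mul, ← mul_assoc, hc2, hsym] at h1
  rw [Matrix.neg_mulVec, dotProduct_neg, Matrix.mulVec_smul, smul_dotProduct, dotProduct_smul,
    Matrix.mulVec_sub, sub_dotProduct, dotProduct_sub, dotProduct_sub, smul_eq_mul, smul_eq_mul,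
    ← mul_assoc, hc2, hsym] at h2
  rw [← hAw]
  linarith

end Pool.Agent.Run7.h59.K2
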