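import Pool.Agent.Run7.h59.K2.Var

/-!
Comparison of the mean of a Lipschitz function with the common mean of its shifts.
-/

set_option autoImplicit false

open MeasureTheory ProbabilityTheory Set
open scoped ENNReal NNReal

namespace Pool.Agent.Run7.h59.K2

variable {ι : Type*} [Fintype ι]

lemma int_exp (a : EuclideanSpace ℝ ι) :
    ∫ x, Real.exp (inner ℝ x a) ∂(stdGaussian (EuclideanSpace ℝ ι)) = Real.exp (‖a‖ ^ 2 / 2) := by
  have h := Pool.Agent.H988R2.integral_stdGaussian_add ι (fun _ => (1 : ℝ)) a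
  simp only [integral_const, probReal_univ, smul_eq_mul, mul_one] at h
  have e : Real.exp (‖a‖ ^ 2 / 2) * Real.exp (-‖a‖ ^ 2 / 2) = 1 := by
    rw [← Real.exp_add, neg_div, add_neg_cancel, Real.exp_zero]
  calc _ = Real.exp (‖a‖ ^ 2 / 2) * (Real.exp (-‖a‖ ^ 2 / 2) *
      ∫ x, Real.exp (inner ℝ x a) ∂(stdGaussian (EuclideanSpace ℝ ι))) := by
        rw [← mul_assoc, e, one_mul]
    _ = _ := by rw [← h, mul_one]

lemma exp_integrable (a : EuclideanSpace ℝ ι) :
    Integrable (fun x => Real.exp (inner ℝ x a)) (stdGaussian (EuclideanSpace ℝ ι)) := by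
  by_contra h
  have h1 := integral_undef h
  rw [int_exp] at h1
  exact (Real.exp_pos _).ne' h1

lemma exp_memLp (a : EuclideanSpace ℝ ι) :
    MemLp (fun x => Real.exp (inner ℝ x a)) 2 (stdGaussian (EuclideanSpace ℝ ι)) := by
  rw [memLp_two_iff_integrable_sq]
  · have e : (fun x : EuclideanSpace ℝ ι => Real.exp (inner ℝ x a) ^ 2) =
        fun x => Real.exp (inner ℝ x ((2 : ℝ) • a)) := by
      funext x
      rw [← Real.exp_nat_mul, inner_smul_right]
      norm_num
    rw [e]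
    exact exp_integrable _
  · exact (by fun_prop : Continuous fun x : EuclideanSpace ℝ ι =>
      Real.exp (inner ℝ x a)).aestronglyMeasurable

/-- the density of a shift -/
noncomputable def den (a x : EuclideanSpace ℝ ι) : ℝ := Real.exp (-‖a‖ ^ 2 / 2) * Real.exp (inner ℝ x a)

lemma den_memLp (a : EuclideanSpace ℝ ι) :
    MemLp (den a) 2 (stdGaussian (EuclideanSpace ℝ ι)) :=
  (exp_memLp a).const_mul _

lemma den_shift (a : EuclideanSpace ℝ ι) (f : EuclideanSpace ℝ ι → ℝ) :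
    ∫ x, den a x * f x ∂(stdGaussian (EuclideanSpace ℝ ι)) =
      ∫ x, f (x + a) ∂(stdGaussian (EuclideanSpace ℝ ι)) := by
  rw [Pool.Agent.H988R2.integral_stdGaussian_add, ← integral_const_mul]
  unfold den
  simp_rw [mul_assoc]

lemma den_mul (a b : EuclideanSpace ℝ ι) :
    ∫ x, den a x * den b x ∂(stdGaussian (EuclideanSpace ℝ ι)) = Real.exp (inner ℝ a b) := by
  have e : ∀ x : EuclideanSpace ℝ ι, den a x * den b x =
      (Real.exp (-‖a‖ ^ 2 / 2) * Real.exp (-‖b‖ ^ 2 / 2)) * Real.exp (inner ℝ x (a + b)) := by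
    intro x
    unfold den
    rw [inner_add_right, Real.exp_add]
    ring
  simp_rw [e]
  rw [integral_const_mul, int_exp, ← Real.exp_add, ← Real.exp_add]
  congr 1
  have h := norm_add_sq_real a b
  rw [h]
  ring

theorem shift_compare {J : Type*} [Fintype J] [Nonempty J] (e : J → EuclideanSpace ℝ ι)
    {K : ℝ≥0} (hK : 0 < K) {f : EuclideanSpace ℝ ι → ℝ} (hf : LipschitzWith K f) (a A : ℝ)
    (ha : ∀ j, ∫ x, f (x + e j) ∂(stdGaussian (EuclideanSpace ℝ ι)) = a)
    (hA : ∑ i, ∑ j, Real.exp (inner ℝ (e i) (e j)) ≤ A * (Fintype.card J : ℝ) ^ 2) :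
    a ≤ ∫ x, f x ∂(stdGaussian (EuclideanSpace ℝ ι)) + K * (A + 80) / 2 := by
  set γ := stdGaussian (EuclideanSpace ℝ ι) with hγ
  obtain ⟨N, hN⟩ : ∃ N : ℝ, N = Fintype.card J := ⟨_, rfl⟩
  have hN0 : 0 < N := by
    rw [hN]
    exact_mod_cast Fintype.card_pos
  obtain ⟨m, hm⟩ : ∃ m, m = ∫ x, f x ∂γ := ⟨_, rfl⟩
  have hfM := lip_memLp hf 2 (by norm_num)
  have hgM : MemLp (fun x => f x - m) 2 γ := hfM.sub (memLp_const _)
  obtain ⟨L, hL⟩ : ∃ L : EuclideanSpace ℝ ι → ℝ, L = fun x => ∑ j, N⁻¹ * den (e j) x := ⟨_, rfl⟩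
  have hLM : MemLp L 2 γ := by
    rw [hL]
    exact memLp_finsetSum _ fun j _ => (den_memLp (e j)).const_mul _
  have hdg : ∀ j, Integrable (fun x => den (e j) x * (f x - m)) γ := fun j =>
    (den_memLp (e j)).integrable_mul hgM
  have h1 : ∫ x, L x * (f x - m) ∂γ = a - m := by
    have e1 : ∀ x, L x * (f x - m) = ∑ j, N⁻¹ * (den (e j) x * (f x - m)) := by
      intro x
      rw [hL]
      simp only
      rw [Finset.sum_mul]
      exact Finset.sum_congr rfl fun j _ => by ring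
    simp_rw [e1]
    rw [integral_finsetSum _ fun j _ => (hdg j).const_mul _]
    have e2 : ∀ j, ∫ x, N⁻¹ * (den (e j) x * (f x - m)) ∂γ = N⁻¹ * (a - m) := by
      intro j
      rw [integral_const_mul, hγ, den_shift (e j) (fun x => f x - m), ← hγ]
      congr 1
      have hs : Integrable (fun x => f (x + e j)) γ := by
        have h3 : LipschitzWith K fun x => f (x + e j) := by
          apply LipschitzWith.of_dist_le_mul
          intro x y
          have := hf.dist_le_mul (x + e j) (y + e j)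
          rwa [dist_add_right] at this
        exact (lip_memLp h3 1 (by norm_num)).integrable le_rfl
      rw [integral_sub hs (integrable_const _), ha j]
      simp
    simp_rw [e2]
    rw [Finset.sum_const, Finset.card_univ, nsmul_eq_mul, ← hN]
    field_simp
  have h2 : ∫ x, L x ^ 2 ∂γ ≤ A := by
    have e1 : ∀ x, L x ^ 2 = ∑ i, ∑ j, N⁻¹ ^ 2 * (den (e i) x * den (e j) x) := by
      intro x
      rw [hL]
      simp only
      rw [sq, Finset.sum_mul_sum]
      exact Finset.sum_congr rfl fun i _ => Finset.sum_congr rfl fun j _ => by ring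
    have hd : ∀ i j, Integrable (fun x => den (e i) x * den (e j) x) γ := fun i j =>
      (den_memLp (e i)).integrable_mul (den_memLp (e j))
    simp_rw [e1]
    rw [integral_finsetSum _ fun i _ => integrable_finsetSum _ fun j _ => (hd i j).const_mul _]
    have e2 : ∀ i, ∫ x, ∑ j, N⁻¹ ^ 2 * (den (e i) x * den (e j) x) ∂γ =
        ∑ j, N⁻¹ ^ 2 * Real.exp (inner ℝ (e i) (e j)) := by
      intro i
      rw [integral_finsetSum _ fun j _ => (hd i j).const_mul _]
      refine Finset.sum_congr rfl fun j _ => ?_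
      rw [integral_const_mul, hγ, den_mul]
    simp_rw [e2, ← Finset.mul_sum]
    rw [← hN] at hA
    calc N⁻¹ ^ 2 * ∑ i, ∑ j, Real.exp (inner ℝ (e i) (e j)) ≤ N⁻¹ ^ 2 * (A * N ^ 2) :=
          mul_le_mul_of_nonneg_left hA (by positivity)
      _ = A := by field_simp
  have hK0 : (0 : ℝ) < K := by exact_mod_cast hK
  have h3 : a - m ≤ ∫ x, ((K : ℝ) / 2 * L x ^ 2 + (2 * (K : ℝ))⁻¹ * (f x - m) ^ 2) ∂γ := by
    rw [← h1]
    refine integral_mono (hLM.integrable_mul hgM) ((hLM.integrable_sq.const_mul _).add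
      (hgM.integrable_sq.const_mul _)) fun x => ?_
    simp only
    obtain ⟨y, hy⟩ : ∃ y, y = f x - m := ⟨_, rfl⟩
    rw [← hy]
    have h4 : (K : ℝ) / 2 * L x ^ 2 + (2 * (K : ℝ))⁻¹ * y ^ 2 - L x * y =
        (2 * (K : ℝ))⁻¹ * (K * L x - y) ^ 2 := by
      field_simp
      ring
    have h5 : 0 ≤ (2 * (K : ℝ))⁻¹ * (K * L x - y) ^ 2 := by positivity
    show L x * y ≤ _
    linarith
  rw [integral_add (hLM.integrable_sq.const_mul _) (hgM.integrable_sq.const_mul _),
    integral_const_mul, integral_const_mul] at h3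
  have h4 := var_lip hf
  rw [← hγ, ← hm] at h4
  have h5 : (2 * (K : ℝ))⁻¹ * ∫ x, (f x - m) ^ 2 ∂γ ≤ (2 * (K : ℝ))⁻¹ * (80 * (K : ℝ) ^ 2) :=
    mul_le_mul_of_nonneg_left h4 (by positivity)
  have h6 : (2 * (K : ℝ))⁻¹ * (80 * (K : ℝ) ^ 2) = 40 * K := by
    field_simp
    ring
  have h7 : (K : ℝ) / 2 * ∫ x, L x ^ 2 ∂γ ≤ (K : ℝ) / 2 * A :=
    mul_le_mul_of_nonneg_left h2 (by positivity)
  rw [← hm]
  linarith

end Pool.Agent.Run7.h59.K2
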