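import Pool.Agent.Run7.h59.KK.Mean
import Pool.Agent.Run7.h59.K2.Lip
import Pool.Agent.Run7.h59.K2.Shift

/-!
For `r = 2` a small signal does not change the mean of the largest eigenvalue of the Kikuchi matrix to
first order.
-/

set_option autoImplicit false

open MeasureTheory ProbabilityTheory Finset Filter Topology

namespace Pool.Agent.Run7.h59.K2

open Pool.Agent.Run7.h59.KK (lmax kik le_lmax lmax_le El gam lmax_cont lmax_int kik_symm adj mem_adj)

lemma flip_mp {κ : Type*} [Fintype κ] (c : κ → ℝ) (hc : ∀ S, c S * c S = 1) :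
    MeasurePreserving (fun (Z : κ → ℝ) S => c S * Z S) (gam κ) (gam κ) := by
  refine measurePreserving_pi _ _ (f := fun S x => c S * x) fun S => ⟨by fun_prop, ?_⟩
  rw [gaussianReal_map_const_mul]
  congr 1
  · simp
  · ext
    simp [sq, hc S]

lemma flip_int {κ : Type*} [Fintype κ] (c : κ → ℝ) (hc : ∀ S, c S * c S = 1) {G : (κ → ℝ) → ℝ}
    (hG : Continuous G) :
    ∫ Z, G (fun S => c S * Z S) ∂(gam κ) = ∫ Z, G Z ∂(gam κ) := by
  have h := (flip_mp c hc).map_eq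
  conv_rhs => rw [← h]
  rw [integral_map (flip_mp c hc).measurable.aemeasurable hG.aestronglyMeasurable]

lemma transfer {κ : Type*} [Fintype κ] {G : EuclideanSpace ℝ κ → ℝ} (hG : Continuous G) :
    ∫ x, G x ∂(stdGaussian (EuclideanSpace ℝ κ)) = ∫ Z, G (WithLp.toLp 2 Z) ∂(gam κ) := by
  rw [← map_pi_eq_stdGaussian, integral_map (by fun_prop) hG.aestronglyMeasurable]

variable {n : ℕ}

lemma FF_shift (ℓ : ℕ) (hl : 1 ≤ ℓ) [Nonempty {K : Finset (Fin n) // K.card = ℓ}] (lam : ℝ)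
    (x : Fin n → ℤˣ) :
    ∫ y, FF n ℓ (y + shf lam x) ∂(stdGaussian (EuclideanSpace ℝ (Finset (Fin n)))) =
      El 2 ℓ n lam := by
  have hc : Continuous (FF n ℓ) := (FF_lip ℓ hl).continuous
  rw [transfer (G := fun y => FF n ℓ (y + shf lam x)) (hc.comp (by fun_prop))]
  have hk : Continuous fun Z : Finset (Fin n) → ℝ => lmax (kik 2 ℓ n lam Z) := lmax_cont 2 ℓ lam
  unfold El
  rw [← flip_int (chi x) (chi_sq x) hk]
  refine integral_congr_ae (Filter.Eventually.of_forall fun Z => ?_)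
  simp only
  rw [kik_shift ℓ lam, ← gauge ℓ x]
  unfold FF
  congr 2
  funext S
  show Z S + (if S.card = 2 then lam * chi x S else 0) = _
  have h := chi_sq x S
  split_ifs
  · linear_combination (-(Z S)) * h
  · linear_combination (-(Z S)) * h

/-- the first absolute moment -/
noncomputable def c1 : ℝ := ∫ g, |g| ∂(gaussianReal 0 1)

lemma c1_int : Integrable (fun g : ℝ => |g|) (gaussianReal 0 1) :=
  ((memLp_id_gaussianReal (μ := 0) (v := 1) 1).integrable (by norm_num)).abs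

lemma c1_pos : 0 < c1 := by
  unfold c1
  rw [integral_pos_iff_support_of_nonneg (fun g => abs_nonneg g) c1_int]
  have e : Function.support (fun g : ℝ => |g|) = {0}ᶜ := by
    ext g
    simp
  rw [e]
  have : NullSingletonClass (gaussianReal 0 1) := nullSingletonClass_gaussianReal one_ne_zero
  rw [(prob_compl_eq_one_iff (measurableSet_singleton 0)).2 (measure_singleton 0)]
  exact one_pos

/-- the neighbours of a vertex -/
def nbr (ℓ : ℕ) (I : {K : Finset (Fin n) // K.card = ℓ}) :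
    Finset {K : Finset (Fin n) // K.card = ℓ} :=
  Finset.univ.filter fun J => (symmDiff J.1 I.1).card = 2

lemma nbr_card (ℓ : ℕ) (hl : 1 ≤ ℓ) (I : {K : Finset (Fin n) // K.card = ℓ}) :
    n - ℓ ≤ (nbr ℓ I).card := by
  have h1 := Pool.Agent.Run7.h59.KK.card_adj_ge 1 I.1
  rw [I.2, Nat.choose_one_right, Nat.choose_one_right] at h1
  have h2 : (adj 1 I.1).card ≤ (nbr ℓ I).card := by
    have h3 : ∀ S ∈ adj 1 I.1, (symmDiff I.1 S).card = ℓ := fun S hS => by
      rw [(mem_adj.1 hS).2, I.2]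
    refine Finset.card_le_card_of_surjOn
      (fun J : {K : Finset (Fin n) // K.card = ℓ} => symmDiff I.1 J.1) ?_
    intro S hS
    rw [Finset.mem_coe] at hS
    refine ⟨⟨symmDiff I.1 S, h3 S hS⟩, ?_, ?_⟩
    · rw [Finset.mem_coe]
      unfold nbr
      rw [Finset.mem_filter]
      refine ⟨Finset.mem_univ _, ?_⟩
      simp only
      rw [symmDiff_comm, ← symmDiff_assoc, symmDiff_self, bot_symmDiff, (mem_adj.1 hS).1]
    · simp only
      rw [← symmDiff_assoc, symmDiff_self, bot_symmDiff]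
  nlinarith

lemma El_ge_sqrt (ℓ : ℕ) (hl : 1 ≤ ℓ) (hn : ℓ < n) : c1 * √((n : ℝ) - ℓ) ≤ El 2 ℓ n 0 := by
  have hne : Nonempty {K : Finset (Fin n) // K.card = ℓ} :=
    Pool.Agent.Run7.h59.KK.vtx_ne n ℓ hn.le
  obtain ⟨I⟩ := id hne
  obtain ⟨T, hT⟩ : ∃ T, T = nbr ℓ I := ⟨_, rfl⟩
  have hTc : n - ℓ ≤ T.card := by rw [hT]; exact nbr_card ℓ hl I
  have hT0 : 0 < T.card := by omega
  have hIT : I ∉ T := by
    rw [hT]
    unfold nbr
    simp
  have hstar : ∀ Z : Finset (Fin n) → ℝ, 2 * ((√(T.card : ℝ))⁻¹ * ∑ J ∈ T, |Z (symmDiff J.1 I.1)|) ≤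
      lmax (kik 2 ℓ n 0 Z) + lmax (kik 2 ℓ n 0 fun S => -1 * Z S) := by
    intro Z
    have h1 := star_le (kik 2 ℓ n 0 Z) (kik_symm 2 ℓ 0 Z) I T (Finset.card_pos.1 hT0) hIT
    have e1 : -kik 2 ℓ n 0 Z = kik 2 ℓ n 0 fun S => -1 * Z S := by
      ext J J'
      unfold kik
      rw [Matrix.neg_apply, Matrix.of_apply, Matrix.of_apply]
      by_cases h : (symmDiff J.1 J'.1).card = 2
      · simp only [h, if_true]
        ring
      · simp only [h, if_false, neg_zero]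
    rw [← e1]
    refine le_trans (le_of_eq ?_) h1
    congr 2
    refine Finset.sum_congr rfl fun J hJ => ?_
    rw [hT] at hJ
    unfold nbr at hJ
    rw [Finset.mem_filter] at hJ
    unfold kik
    rw [Matrix.of_apply, if_pos hJ.2, zero_add]
  have hk : Continuous fun Z : Finset (Fin n) → ℝ => lmax (kik 2 ℓ n 0 Z) := lmax_cont 2 ℓ 0
  have hki := lmax_int (n := n) 2 ℓ 0
  have h2 := flip_int (κ := Finset (Fin n)) (fun _ => -1) (fun _ => by norm_num) hk
  have hki2 : Integrable (fun Z : Finset (Fin n) → ℝ => lmax (kik 2 ℓ n 0 fun S => -1 * Z S))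
      (gam (Finset (Fin n))) := by
    have hmp := flip_mp (κ := Finset (Fin n)) (fun _ => -1) (fun _ => by norm_num)
    exact (hmp.integrable_comp hk.aestronglyMeasurable).2 hki
  have habs : ∀ S : Finset (Fin n), Integrable (fun Z : Finset (Fin n) → ℝ => |Z S|)
      (gam (Finset (Fin n))) := fun S => (Pool.Agent.Run7.h59.KK.abs_int S).abs
  have habs2 : ∀ S : Finset (Fin n), ∫ Z, |Z S| ∂(gam (Finset (Fin n))) = c1 := by
    intro S
    have h := integral_comp_eval (μ := fun _ : Finset (Fin n) => gaussianReal 0 1) (i := S)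
      (f := fun x : ℝ => |x|) (by fun_prop)
    exact h
  have h3 := integral_mono (μ := gam (Finset (Fin n)))
    (((integrable_finsetSum T fun J _ => habs (symmDiff J.1 I.1)).const_mul _).const_mul 2)
    (hki.add hki2) hstar
  rw [integral_const_mul, integral_const_mul, integral_finsetSum _ fun J _ => habs _] at h3
  have h4 : ∫ Z, (lmax (kik 2 ℓ n 0 Z) + lmax (kik 2 ℓ n 0 fun S => -1 * Z S))
      ∂(gam (Finset (Fin n))) = 2 * El 2 ℓ n 0 := by
    rw [integral_add hki hki2, h2]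
    unfold El
    ring
  have h5 : 2 * ((√(T.card : ℝ))⁻¹ * ∑ J ∈ T, ∫ Z, |Z (symmDiff J.1 I.1)| ∂(gam (Finset (Fin n)))) ≤
      2 * El 2 ℓ n 0 := by
    rw [← h4]
    exact h3
  simp_rw [habs2] at h5
  rw [Finset.sum_const, nsmul_eq_mul] at h5
  have h6 : (0 : ℝ) < T.card := by exact_mod_cast hT0
  have h7 : (√(T.card : ℝ))⁻¹ * (T.card * c1) = c1 * √(T.card : ℝ) := by
    have h8 : √(T.card : ℝ) * √(T.card : ℝ) = T.card := Real.mul_self_sqrt h6.le
    have h9 : 0 < √(T.card : ℝ) := Real.sqrt_pos.2 h6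
    calc (√(T.card : ℝ))⁻¹ * (T.card * c1) =
        (√(T.card : ℝ))⁻¹ * ((√(T.card : ℝ) * √(T.card : ℝ)) * c1) := by rw [h8]
      _ = c1 * √(T.card : ℝ) := by field_simp
  rw [h7] at h5
  have h10 : √((n : ℝ) - ℓ) ≤ √(T.card : ℝ) := by
    apply Real.sqrt_le_sqrt
    have : n ≤ T.card + ℓ := by omega
    have h11 : (n : ℝ) ≤ T.card + ℓ := by exact_mod_cast this
    linarith
  have h12 := mul_le_mul_of_nonneg_left h10 c1_pos.le
  linarith

/-- the mean with the signal is at most the mean without the signal, up to a constant -/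
theorem El_le (ℓ : ℕ) (hl : 1 ≤ ℓ) (hn : ℓ < n) (lam C : ℝ) (hC : n * lam ^ 2 / 2 = C)
    (hI : Integrable (fun g : ℝ => Real.exp (C * g ^ 2)) (gaussianReal 0 1)) :
    El 2 ℓ n lam ≤ El 2 ℓ n 0 +
      ℓ * ((∫ g, Real.exp (C * g ^ 2) ∂(gaussianReal 0 1)) + 80) := by
  have hne : Nonempty {K : Finset (Fin n) // K.card = ℓ} :=
    Pool.Agent.Run7.h59.KK.vtx_ne n ℓ hn.le
  rw [← hC] at hI ⊢
  have h1 := shift_compare (shf (n := n) lam) (K := (2 * ℓ : NNReal))
    (by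
      have : (0 : NNReal) < ℓ := by exact_mod_cast hl
      positivity) (FF_lip ℓ hl) (El 2 ℓ n lam)
    (∫ g, Real.exp (n * lam ^ 2 / 2 * g ^ 2) ∂(gaussianReal 0 1)) (FF_shift ℓ hl lam)
    (second n lam hI)
  have h2 : ∫ x, FF n ℓ x ∂(stdGaussian (EuclideanSpace ℝ (Finset (Fin n)))) = El 2 ℓ n 0 := by
    have h3 := FF_shift ℓ hl 0 (fun _ : Fin n => 1)
    have e : shf 0 (fun _ : Fin n => 1) = 0 := by
      unfold shf
      ext S
      simp
    rw [e] at h3
    simpa using h3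
  rw [h2] at h1
  push_cast at h1
  linarith

/-- no first order gain for a small signal -/
theorem no_gain : ∃ δ : ℝ, 0 < δ ∧ ∀ ℓ : ℕ, 1 ≤ ℓ → ∃ μ : ℝ, δ < μ ∧ ∀ ε : ℝ, 0 < ε →
    ∀ᶠ n : ℕ in atTop, ¬ (1 + ε ≤ El 2 ℓ n (μ * (n : ℝ) ^ (-((2 : ℕ) : ℝ) / 4)) / El 2 ℓ n 0) := by
  obtain ⟨C, hC, hI⟩ := IsGaussian.exists_integrable_exp_sq (gaussianReal 0 1)
  simp only [Real.norm_eq_abs, sq_abs] at hI
  obtain ⟨μ, hμ⟩ : ∃ μ, μ = √(2 * C) := ⟨_, rfl⟩
  have hμ0 : 0 < μ := by rw [hμ]; positivity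
  have hμ2 : μ ^ 2 = 2 * C := by rw [hμ, Real.sq_sqrt (by positivity)]
  refine ⟨μ / 2, by positivity, fun ℓ hl => ⟨μ, by linarith, fun ε hε => ?_⟩⟩
  obtain ⟨D, hD⟩ : ∃ D : ℝ, D = ℓ * ((∫ g, Real.exp (C * g ^ 2) ∂(gaussianReal 0 1)) + 80) :=
    ⟨_, rfl⟩
  have ht : Tendsto (fun n : ℕ => ε * (c1 * √((n : ℝ) - ℓ))) atTop atTop := by
    apply Tendsto.const_mul_atTop hε
    apply Tendsto.const_mul_atTop c1_pos
    apply Real.tendsto_sqrt_atTop.comp
    exact tendsto_atTop_add_const_right _ _ tendsto_natCast_atTop_atTop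
  filter_upwards [ht.eventually_gt_atTop D, eventually_gt_atTop ℓ] with n h1 hn
  have hn0 : (0 : ℝ) < n := by
    have : 0 < n := by omega
    exact_mod_cast this
  have hpos : 0 < El 2 ℓ n 0 := Pool.Agent.Run7.h59.KK.El_pos 1 ℓ n le_rfl hl hn
  rw [not_le, div_lt_iff₀ hpos]
  have h2 := El_le ℓ hl hn (μ * (n : ℝ) ^ (-((2 : ℕ) : ℝ) / 4)) C (by
    have e : ((n : ℝ) ^ (-((2 : ℕ) : ℝ) / 4)) ^ 2 = (n : ℝ)⁻¹ := by
      rw [← Real.rpow_natCast, ← Real.rpow_mul hn0.le, ← Real.rpow_neg_one]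
      congr 1
      norm_num
    rw [mul_pow, e, hμ2]
    field_simp) hI
  rw [← hD] at h2
  have h3 := El_ge_sqrt ℓ hl hn
  have h4 := mul_le_mul_of_nonneg_left h3 hε.le
  linarith

end Pool.Agent.Run7.h59.K2
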