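import Pool.Agent.R972.GM.Rot
import Pool.Agent.H988R2.Gauss

/-!
The variance of a Lipschitz function of a standard Gaussian vector.
-/

set_option autoImplicit false

open MeasureTheory ProbabilityTheory Set
open scoped ENNReal NNReal Convolution

namespace Pool.Agent.Run7.h59.K2

variable {E : Type*} [NormedAddCommGroup E] [InnerProductSpace ℝ E] [FiniteDimensional ℝ E]
  [MeasurableSpace E] [BorelSpace E]

lemma smooth {K : ℝ≥0} {f : E → ℝ} (hf : LipschitzWith K f) :
    ∃ u : E → ℝ, Differentiable ℝ u ∧ LipschitzWith K u ∧ ∀ x, |u x - f x| ≤ K := by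
  obtain ⟨φ⟩ : Nonempty (ContDiffBump (0 : E)) := inferInstance
  obtain ⟨φ, hφ⟩ : ∃ φ : ContDiffBump (0 : E), φ.rOut = 1 := ⟨⟨1/2, 1, by norm_num, by norm_num⟩, rfl⟩
  refine ⟨(φ.normed volume ⋆[ContinuousLinearMap.lsmul ℝ ℝ, volume] f), ?_, ?_, ?_⟩
  · have h1 : ContDiff ℝ 1 (φ.normed volume ⋆[ContinuousLinearMap.lsmul ℝ ℝ, volume] f) :=
      HasCompactSupport.contDiff_convolution_left _ φ.hasCompactSupport_normed
        (φ.contDiff_normed) hf.continuous.locallyIntegrable
    exact h1.differentiable (by norm_num)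
  · apply LipschitzWith.of_dist_le_mul
    intro x y
    have hint : ∀ x : E, Integrable (fun t => φ.normed volume t • f (x - t)) volume := by
      intro x
      apply Continuous.integrable_of_hasCompactSupport
      · exact φ.continuous_normed.smul (hf.continuous.comp (continuous_const.sub continuous_id))
      · exact φ.hasCompactSupport_normed.smul_right
    rw [Real.dist_eq]
    unfold convolution
    simp only [ContinuousLinearMap.lsmul_apply]
    rw [← integral_sub (hint x) (hint y)]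
    have h2 : ∀ t, ‖φ.normed volume t • f (x - t) - φ.normed volume t • f (y - t)‖ ≤
        φ.normed volume t * (K * dist x y) := by
      intro t
      rw [← smul_sub, smul_eq_mul, norm_mul, Real.norm_of_nonneg (φ.nonneg_normed t)]
      apply mul_le_mul_of_nonneg_left _ (φ.nonneg_normed t)
      rw [← dist_eq_norm]
      have := hf.dist_le_mul (x - t) (y - t)
      rwa [dist_sub_right] at this
    rw [← Real.norm_eq_abs]
    refine (norm_integral_le_of_norm_le (φ.integrable_normed.mul_const _)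
      (Filter.Eventually.of_forall h2)).trans (le_of_eq ?_)
    rw [integral_mul_const, φ.integral_normed, one_mul]
  · intro x
    have h := φ.dist_normed_convolution_le (μ := volume) (g := f) (x₀ := x) (ε := K)
      hf.continuous.aestronglyMeasurable (fun y hy => by
        rw [hφ, Metric.mem_ball] at hy
        have h1 := hf.dist_le_mul y x
        refine h1.trans ?_
        have := mul_le_mul_of_nonneg_left hy.le K.coe_nonneg
        rwa [mul_one] at this)
    rwa [Real.dist_eq] at h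

lemma memLp_norm (p : ℝ≥0∞) (hp : p ≠ ∞) : MemLp (fun x : E => ‖x‖) p (stdGaussian E) := by
  have := (IsGaussian.memLp_id (stdGaussian E) p hp).norm
  exact this

lemma lip_memLp {K : ℝ≥0} {f : E → ℝ} (hf : LipschitzWith K f) (p : ℝ≥0∞) (hp : p ≠ ∞) :
    MemLp f p (stdGaussian E) := by
  have a1 : MemLp (fun _ : E => |f 0|) p (stdGaussian E) := memLp_const _
  have a2 : MemLp (fun x : E => (K : ℝ) * ‖x‖) p (stdGaussian E) :=
    (memLp_norm (E := E) p hp).const_mul (K : ℝ)
  have h1 : MemLp (fun x : E => |f 0| + (K : ℝ) * ‖x‖) p (stdGaussian E) := a1.add a2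
  refine h1.mono hf.continuous.aestronglyMeasurable (Filter.Eventually.of_forall fun x => ?_)
  rw [Real.norm_eq_abs, Real.norm_eq_abs]
  refine le_trans ?_ (le_abs_self _)
  have h2 := hf.dist_le_mul x 0
  rw [Real.dist_eq, dist_zero_right] at h2
  have h3 := abs_sub_abs_le_abs_sub (f x) (f 0)
  linarith

lemma var_pair {f : E → ℝ} (hf : MemLp f 2 (stdGaussian E)) :
    ∫ x, (f x - ∫ y, f y ∂(stdGaussian E)) ^ 2 ∂(stdGaussian E) ≤
      ∫ p, (f p.2 - f p.1) ^ 2 ∂((stdGaussian E).prod (stdGaussian E)) := by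
  set γ := stdGaussian E
  obtain ⟨m, hm⟩ : ∃ m, m = ∫ y, f y ∂γ := ⟨_, rfl⟩
  rw [← hm]
  have hi := hf.integrable (by norm_num)
  have h1 : ∀ x : E, (f x - m) ^ 2 ≤ ∫ y, (f y - f x) ^ 2 ∂γ := by
    intro x
    have hg : MemLp (fun y => f y - f x) 2 γ := hf.sub (memLp_const _)
    have e1 : ∫ y, (f y - f x) ∂γ = m - f x := by
      rw [integral_sub hi (integrable_const _), ← hm]
      simp
    have h2 : 0 ≤ ∫ y, (f y - f x - (m - f x)) ^ 2 ∂γ := integral_nonneg fun y => sq_nonneg _
    have e2 : ∀ y, (f y - f x - (m - f x)) ^ 2 =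
        (f y - f x) ^ 2 - 2 * (m - f x) * (f y - f x) + (m - f x) ^ 2 := by
      intro y; ring
    simp_rw [e2] at h2
    have i1 : Integrable (fun y => (f y - f x) ^ 2) γ := hg.integrable_sq
    have i2 : Integrable (fun y => 2 * (m - f x) * (f y - f x)) γ :=
      (hi.sub (integrable_const _)).const_mul _
    have i3 : Integrable (fun y => (f y - f x) ^ 2 - 2 * (m - f x) * (f y - f x)) γ := i1.sub i2
    rw [integral_add i3 (integrable_const _), integral_sub i1 i2, integral_const_mul, e1] at h2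
    simp only [integral_const, probReal_univ, smul_eq_mul, one_mul] at h2
    nlinarith
  have hp : Integrable (fun p : E × E => (f p.2 - f p.1) ^ 2) (γ.prod γ) := by
    have h3 : MemLp (fun p : E × E => f p.2 - f p.1) 2 (γ.prod γ) :=
      (hf.comp_snd γ).sub (hf.comp_fst γ)
    exact h3.integrable_sq
  rw [integral_prod _ hp]
  refine integral_mono ?_ hp.integral_prod_left h1
  exact (hf.sub (memLp_const _)).integrable_sq

/-- the variance of a Lipschitz function -/
theorem var_lip {K : ℝ≥0} {f : E → ℝ} (hf : LipschitzWith K f) :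
    ∫ x, (f x - ∫ y, f y ∂(stdGaussian E)) ^ 2 ∂(stdGaussian E) ≤ 80 * (K : ℝ) ^ 2 := by
  refine (var_pair (lip_memLp hf 2 (by norm_num))).trans ?_
  obtain ⟨u, hu, huL, huf⟩ := smooth hf
  set γ := stdGaussian E
  have h1 := Pool.Agent.R972.GM.rotp hu (b := fun _ => (K : ℝ)) continuous_const
    (fun x => norm_fderiv_le_of_lipschitz ℝ huL) 1 le_rfl
  have huM := lip_memLp huL 2 (by norm_num)
  have hfM := lip_memLp hf 2 (by norm_num)
  have hup : Integrable (fun p : E × E => (u p.2 - u p.1) ^ 2) (γ.prod γ) :=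
    ((huM.comp_snd γ).sub (huM.comp_fst γ)).integrable_sq
  have hfp : Integrable (fun p : E × E => (f p.2 - f p.1) ^ 2) (γ.prod γ) :=
    ((hfM.comp_snd γ).sub (hfM.comp_fst γ)).integrable_sq
  have h2 : ∫ p, (u p.2 - u p.1) ^ 2 ∂(γ.prod γ) ≤ (Real.pi / 2) ^ 2 * 12 * (K : ℝ) ^ 2 := by
    have e1 : ENNReal.ofReal (∫ p, (u p.2 - u p.1) ^ 2 ∂(γ.prod γ)) ≤
        ENNReal.ofReal ((Real.pi / 2) ^ 2 * 12 * (K : ℝ) ^ 2) := by
      rw [ofReal_integral_eq_lintegral_ofReal hup
        (Filter.Eventually.of_forall fun p => sq_nonneg _)]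
      simp only [mul_one, Nat.cast_one, pow_one] at h1
      refine h1.trans ?_
      have e2 : ∫⁻ x, ENNReal.ofReal (‖fderiv ℝ u x‖ ^ 2) ∂(stdGaussian E) ≤
          ENNReal.ofReal ((K : ℝ) ^ 2) := by
        calc ∫⁻ x, ENNReal.ofReal (‖fderiv ℝ u x‖ ^ 2) ∂(stdGaussian E) ≤
            ∫⁻ _x, ENNReal.ofReal ((K : ℝ) ^ 2) ∂(stdGaussian E) := by
              apply lintegral_mono
              intro x
              apply ENNReal.ofReal_le_ofReal
              exact pow_le_pow_left₀ (norm_nonneg _) (norm_fderiv_le_of_lipschitz ℝ huL) 2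
          _ = _ := by simp
      calc _ ≤ ENNReal.ofReal ((Real.pi / 2) ^ 2 * 12) * ENNReal.ofReal ((K : ℝ) ^ 2) := by
            gcongr
        _ = _ := by rw [← ENNReal.ofReal_mul (by positivity)]
    rwa [ENNReal.ofReal_le_ofReal_iff (by positivity)] at e1
  have h3 : ∫ p, (f p.2 - f p.1) ^ 2 ∂(γ.prod γ) ≤
      ∫ p, (2 * (u p.2 - u p.1) ^ 2 + 8 * (K : ℝ) ^ 2) ∂(γ.prod γ) := by
    refine integral_mono hfp ((hup.const_mul 2).add (integrable_const _)) fun p => ?_
    have a1 := abs_le.1 (huf p.1)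
    have a2 := abs_le.1 (huf p.2)
    obtain ⟨a, ha⟩ : ∃ a, a = u p.2 - u p.1 := ⟨_, rfl⟩
    obtain ⟨b, hb⟩ : ∃ b, b = (f p.2 - u p.2) - (f p.1 - u p.1) := ⟨_, rfl⟩
    have e : f p.2 - f p.1 = a + b := by rw [ha, hb]; ring
    have hb2 : b ^ 2 ≤ (2 * (K : ℝ)) ^ 2 := by
      apply sq_le_sq' <;> rw [hb] <;> linarith [a1.1, a1.2, a2.1, a2.2]
    simp only
    rw [e, ← ha]
    nlinarith [sq_nonneg (a - b)]
  rw [integral_add (hup.const_mul 2) (integrable_const _), integral_const_mul] at h3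
  simp only [integral_const, probReal_univ, smul_eq_mul, one_mul] at h3
  have hpi : Real.pi ^ 2 < 10 := by
    have := Real.pi_lt_d2
    have := Real.pi_pos
    nlinarith
  have hK : 0 ≤ (K : ℝ) ^ 2 := sq_nonneg _
  nlinarith

end Pool.Agent.Run7.h59.K2
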